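import Mathlib

/-!
# Measures of weak non-compactness and JBW*-triples: definitions
-/

open scoped ENNReal NNReal ComplexConjugate Topology
open Filter Set

set_option autoImplicit false

namespace Pool.Agent.WeakNoncompactness

/-- `IsJBStarTriple E T`: the complex Banach space `E` is a JB*-triple with triple product
`T a b c = {a, b, c}`.  The product is continuous, linear in the first (hence, by symmetry, in the
third) variable, conjugate-linear in the second one and symmetric in the outer variables, and
* `jordan` is the Jordan identity `L(x,y)L(a,b) = L(L(x,y)a,b) - L(a,L(y,x)b) + L(a,b)L(x,y)`,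
  where `L(a,b)x = {a,b,x}`;
* `positive` says that each operator `L = L(a,a)` is hermitian (`exp (i t L)` is an isometry for
  every real `t`) and has nonnegative spectrum;
* `norm_cube` says `‖{a,a,a}‖ = ‖a‖^3`. -/
structure IsJBStarTriple (E : Type) [NormedAddCommGroup E] [NormedSpace ℂ E]
    (T : E → E → E → E) : Prop where
  complete : CompleteSpace E
  continuous : Continuous fun p : E × E × E => T p.1 p.2.1 p.2.2
  add_left : ∀ a a' b c : E, T (a + a') b c = T a b c + T a' b c
  smul_left : ∀ (z : ℂ) (a b c : E), T (z • a) b c = z • T a b c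
  add_middle : ∀ a b b' c : E, T a (b + b') c = T a b c + T a b' c
  smul_middle : ∀ (z : ℂ) (a b c : E), T a (z • b) c = conj z • T a b c
  symm : ∀ a b c : E, T a b c = T c b a
  jordan : ∀ x y a b c : E,
    T x y (T a b c) = T (T x y a) b c - T a (T y x b) c + T a b (T x y c)
  positive : ∀ a : E, ∃ L : E →L[ℂ] E, (∀ x, L x = T a a x) ∧
    (∀ (t : ℝ) (x : E), ‖NormedSpace.exp (((t : ℂ) * Complex.I) • L) x‖ = ‖x‖) ∧
    ∀ z ∈ spectrum ℂ L, 0 ≤ z.re ∧ z.im = 0
  norm_cube : ∀ a : E, ‖T a a a‖ = ‖a‖ ^ 3

/-- A JBW*-triple: a JB*-triple that is (isometrically) the dual of a Banach space. -/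
def IsJBWStarTriple (E : Type) [NormedAddCommGroup E] [NormedSpace ℂ E] : Prop :=
  (∃ T : E → E → E → E, IsJBStarTriple E T) ∧
  ∃ (P : Type) (_ : NormedAddCommGroup P) (_ : NormedSpace ℂ P),
    CompleteSpace P ∧ Nonempty (E ≃ₗᵢ[ℂ] StrongDual ℂ P)

section quantities

variable {X : Type} [NormedAddCommGroup X] [NormedSpace ℂ X]

/-- `K ⊆ X` is weakly compact. -/
def IsWeaklyCompact (K : Set X) : Prop := IsCompact (toWeakSpace ℂ X '' K)

/-- The De Blasi measure of weak non-compactness
`omega A = inf { sup_{a in A} dist(a, K) : K nonempty and weakly compact }`. -/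
noncomputable def omega (A : Set X) : ℝ≥0∞ :=
  ⨅ (K : Set X) (_ : K.Nonempty ∧ IsWeaklyCompact K), ⨆ a ∈ A, Metric.infEDist a K

/-- The weak* closure in `X**` of (the canonical image of) `A ⊆ X`. -/
def wstarClosure (A : Set X) : Set (StrongDual ℂ (StrongDual ℂ X)) :=
  {x | StrongDual.toWeakDual x ∈
    closure ((fun a : X => StrongDual.toWeakDual (NormedSpace.inclusionInDoubleDual ℂ X a)) '' A)}

/-- `wk A = sup { dist(x, X) : x in the weak* closure of A in X** }`. -/
noncomputable def wk (A : Set X) : ℝ≥0∞ :=
  ⨆ x ∈ wstarClosure A, Metric.infEDist x (Set.range (NormedSpace.inclusionInDoubleDual ℂ X))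

end quantities

end Pool.Agent.WeakNoncompactness
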