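import Mathlib
import Pool.Agent.WeakNoncompactness.Defs

/-!
# The De Blasi measure and `wk` are not equivalent on `ℓ^∞`

We show that the De Blasi measure of weak non-compactness `omega` is not bounded by any multiple
of the quantity `wk` on the JBW*-triple (commutative von Neumann algebra) `ℓ^∞`.

For a sequence `s` of naturals and `N ≥ 1` let `vec N s` be the element
`t ↦ J N s t / N` of `ℓ^∞` (`t` runs over a countable set of sequences), where `J N s t` is the
number of initial true inequalities among the first `N` in the chain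
`s 0 < t 0 < s 1 < t 1 < ...`, and let `A_N` be the set of all `vec N s`.

* `wk A_N ≤ 1 / N`: along an ultrafilter the sequences `s` either stabilise, or they stabilise up
  to a coordinate `p` at which `s p → ∞`; then `vec N s` differs from a fixed vector by at most
  `1 / N` outside the set of `t` with `s p < t p < s (p+1)`, and such sets are disjoint along
  suitable subsequences, so that functionals do not see them in the limit.
* `omega A_N ≥ 1 / 2`: if `A_N` were closer than `1/2` to a weakly compact set, then iterated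
  limits along a nonprincipal ultrafilter could be interchanged up to an error less than `1`;
  but the iterated limit in the order `s 0, t 0, s 1, t 1, ...` is `1` and the one in the order
  `t 0, t 1, ..., s 0, s 1, ...` is `0`.
-/

open scoped ENNReal NNReal ComplexConjugate Topology
open Filter Set

set_option autoImplicit false

namespace Pool.Agent.WeakNoncompactness

/-- The complex Banach space `ℓ^∞` of bounded complex sequences with the supremum norm. -/
abbrev Linf : Type := lp (fun _ : ℕ => ℂ) ∞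

/-- `J N s t` is the number of initial true inequalities among the first `N` inequalities of the
chain `s 0 < t 0 < s 1 < t 1 < ...`. -/
def J : ℕ → (ℕ → ℕ∞) → (ℕ → ℕ∞) → ℕ
  | 0, _, _ => 0
  | N + 1, s, t => if s 0 < t 0 then 1 + J N t (fun i => s (i + 1)) else 0

lemma J_le : ∀ (N : ℕ) (s t : ℕ → ℕ∞), J N s t ≤ N
  | 0, s, t => by simp [J]
  | N + 1, s, t => by
      have := J_le N t (fun i => s (i + 1))
      simp only [J]; split_ifs <;> omega

lemma J_congr : ∀ (N : ℕ) (s s' t t' : ℕ → ℕ∞), (∀ i ≤ N, s i = s' i) → (∀ i ≤ N, t i = t' i) →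
    J N s t = J N s' t'
  | 0, s, s', t, t', _, _ => by simp [J]
  | N + 1, s, s', t, t', h, h' => by
      have := J_congr N t t' (fun i => s (i + 1)) (fun i => s' (i + 1))
        (fun i hi => h' i (by omega)) (fun i hi => h (i + 1) (by omega))
      simp only [J, h 0 (by omega), h' 0 (by omega), this]

lemma J_full : ∀ (N : ℕ) (s t : ℕ → ℕ∞), (∀ i, 2 * i < N → s i < t i) →
    (∀ i, 2 * i + 1 < N → t i < s (i + 1)) → J N s t = N
  | 0, s, t, _, _ => by simp [J]
  | N + 1, s, t, h, h' => by
      have := J_full N t (fun i => s (i + 1)) (fun i hi => h' i (by omega))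
        (fun i hi => h (i + 1) (by omega))
      simp only [J, this, if_pos (h 0 (by omega))]; omega

lemma J_zero_of (N : ℕ) (s t : ℕ → ℕ∞) (h : t 0 ≤ s 0) : J N s t = 0 := by
  cases N with
  | zero => rfl
  | succ N => simp [J, not_lt.2 h]

lemma J_near : ∀ (p N : ℕ) (s s' t : ℕ → ℕ∞), (∀ i < p, s i = s' i) → s' p = ⊤ →
    (∀ i, t i ≠ ⊤) → ¬ (s p < t p ∧ t p < s (p + 1)) →
    (J N s t ≤ J N s' t + 1 ∧ J N s' t ≤ J N s t + 1)
  | 0, N, s, s', t, _, h1, _, h3 => by
      have h0 : J N s' t = 0 := J_zero_of N s' t (by rw [h1]; exact le_top)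
      rw [h0]
      refine ⟨?_, by omega⟩
      cases N with
      | zero => simp [J]
      | succ N =>
        simp only [J]
        split_ifs with h
        · have : J N t (fun i => s (i + 1)) = 0 := J_zero_of _ _ _ (by
            simp only [not_and, not_lt] at h3
            exact h3 h)
          omega
        · omega
  | p + 1, N, s, s', t, h0, h1, h2, h3 => by
      have e0 : s 0 = s' 0 := h0 0 (by omega)
      rcases N with _ | _ | N
      · simp [J]
      · simp only [J, e0]; split_ifs <;> omega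
      · simp only [J, e0]
        have key := J_near p N (fun i => s (i + 1)) (fun i => s' (i + 1)) (fun i => t (i + 1))
          (fun i hi => h0 (i + 1) (by omega)) h1 (fun i => h2 _) h3
        rcases p with _ | p
        · have h1' : s' 1 = ⊤ := h1
          have : t 0 < s' (0 + 1) := by
            simp only [zero_add, h1']; exact lt_top_iff_ne_top.2 (h2 0)
          simp only [this, if_true]
          have hz : J N (fun i => s' (i + 1)) (fun i => t (i + 1)) = 0 :=
            J_zero_of _ _ _ (by simp [h1'])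
          split_ifs <;> omega
        · have e1 : s (0 + 1) = s' (0 + 1) := h0 1 (by omega)
          simp only [e1]
          split_ifs <;> omega

/-- The `n`-th finitely supported sequence, in some enumeration. -/
def seq (n i : ℕ) : ℕ := ((Encodable.decode (α := List ℕ) n).getD []).getD i 0

lemma exists_code (k : ℕ) (t : ℕ → ℕ) : ∃ n, ∀ i < k, seq n i = t i := by
  refine ⟨Encodable.encode (List.ofFn (fun i : Fin k => t i)), fun i hi => ?_⟩
  simp [seq, hi, List.getD]

/-- cast to `ℕ∞` -/
def cst (s : ℕ → ℕ) : ℕ → ℕ∞ := fun i => (s i : ℕ∞)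

/-- bounded sequences give elements of `ℓ^∞` -/
def mk (f : ℕ → ℂ) (h : ∀ n, ‖f n‖ ≤ 1) : Linf :=
  ⟨f, memℓp_infty ⟨1, by rintro _ ⟨n, rfl⟩; exact h n⟩⟩

lemma mk_apply (f : ℕ → ℂ) (h : ∀ n, ‖f n‖ ≤ 1) (m : ℕ) : (mk f h : Linf) m = f m := rfl

lemma norm_mk_le (f : ℕ → ℂ) (h : ∀ n, ‖f n‖ ≤ 1) : ‖mk f h‖ ≤ 1 :=
  lp.norm_le_of_forall_le zero_le_one h

lemma norm_div_le_one (j N : ℕ) (h : j ≤ N) : ‖((j : ℂ) / (N : ℂ))‖ ≤ 1 := by
  rw [norm_div, Complex.norm_natCast, Complex.norm_natCast]
  exact div_le_one_of_le₀ (by exact_mod_cast h) (by positivity)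

/-- the vector attached to `s` -/
noncomputable def vec' (N : ℕ) (s : ℕ → ℕ∞) : Linf :=
  mk (fun n => (J N s (cst (seq n)) : ℂ) / N) (fun _ => norm_div_le_one _ _ (J_le _ _ _))

/-- The vector `(J N s (seq n) / N)_n` of `ℓ^∞` attached to a sequence `s` of naturals. -/
noncomputable def vec (N : ℕ) (s : ℕ → ℕ) : Linf := vec' N (cst s)

lemma norm_vec_le (N : ℕ) (s : ℕ → ℕ) : ‖vec N s‖ ≤ 1 :=
  norm_mk_le _ (fun _ => norm_div_le_one _ _ (J_le _ _ _))

lemma vec'_apply (N : ℕ) (s : ℕ → ℕ∞) (n : ℕ) :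
    vec' N s n = (J N s (cst (seq n)) : ℂ) / N := rfl

/-- Sum over disjointly supported vectors. -/
lemma sum_disjoint {ι : Type} (μ : StrongDual ℂ Linf) (d : ι → Linf) (hd : ∀ j, ‖d j‖ ≤ 1)
    (hdis : ∀ i j n, d i n ≠ 0 → d j n ≠ 0 → i = j) (F : Finset ι) :
    ∑ j ∈ F, ‖μ (d j)‖ ≤ ‖μ‖ := by
  classical
  set c : ι → ℂ := fun j => if μ (d j) = 0 then 0 else conj (μ (d j)) / ‖μ (d j)‖ with hc
  have hcn : ∀ j, ‖c j‖ ≤ 1 := by
    intro j
    simp only [hc]
    split_ifs with h
    · simp
    · rw [norm_div, RCLike.norm_conj, Complex.norm_real, norm_norm]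
      exact div_self_le_one _
  have hcm : ∀ j, c j * μ (d j) = (‖μ (d j)‖ : ℂ) := by
    intro j
    simp only [hc]
    split_ifs with h
    · simp [h]
    · have hne : (‖μ (d j)‖ : ℂ) ≠ 0 := by simpa using h
      rw [div_mul_eq_mul_div, div_eq_iff hne, mul_comm, Complex.mul_conj, Complex.normSq_eq_norm_sq]
      push_cast; ring
  have h1 : μ (∑ j ∈ F, c j • d j) = ((∑ j ∈ F, ‖μ (d j)‖ : ℝ) : ℂ) := by
    rw [map_sum]; push_cast
    exact Finset.sum_congr rfl fun j _ => by rw [map_smul, smul_eq_mul, hcm]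
  have h2 : ‖∑ j ∈ F, c j • d j‖ ≤ 1 := by
    refine lp.norm_le_of_forall_le zero_le_one fun n => ?_
    have hs : (∑ j ∈ F, c j • d j : Linf) n = ∑ j ∈ F, c j * d j n := by
      rw [lp.coeFn_sum, Finset.sum_apply]
      rfl
    rw [hs]
    by_cases h : ∃ j ∈ F, d j n ≠ 0
    · obtain ⟨j, hj, hjn⟩ := h
      rw [Finset.sum_eq_single_of_mem j hj]
      · rw [norm_mul]
        have := lp.norm_apply_le_norm (by simp) (d j) n
        calc ‖c j‖ * ‖d j n‖ ≤ 1 * 1 :=
              mul_le_mul (hcn j) (this.trans (hd j)) (norm_nonneg _) zero_le_one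
          _ = 1 := one_mul 1
      · intro i _ hij
        have : d i n = 0 := by
          by_contra h0
          exact hij (hdis i j n h0 hjn)
        rw [this, mul_zero]
    · push Not at h
      rw [Finset.sum_eq_zero fun j hj => by rw [h j hj, mul_zero]]
      simp
  have h3 := μ.le_of_opNorm_le_of_le le_rfl h2
  rw [h1, Complex.norm_real, mul_one, Real.norm_of_nonneg] at h3
  · exact h3
  · exact Finset.sum_nonneg fun _ _ => norm_nonneg _

/-- The bad part of `vec N s - vec' N ŝ`. -/
noncomputable def bad (N p : ℕ) (s : ℕ → ℕ) (s' : ℕ → ℕ∞) : Linf :=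
  open Classical in
  mk (fun n => if s p < seq n p ∧ seq n p < s (p + 1) then
    ((J N (cst s) (cst (seq n)) : ℂ) / N - (J N s' (cst (seq n)) : ℂ) / N) else 0)
    (fun n => by
      split_ifs
      · rw [← sub_div, norm_div, Complex.norm_natCast]
        refine div_le_one_of_le₀ ?_ (by positivity)
        have h1 := J_le N (cst s) (cst (seq n))
        have h2 := J_le N s' (cst (seq n))
        have : ((J N (cst s) (cst (seq n)) : ℂ) - (J N s' (cst (seq n)) : ℂ)) =
          (((J N (cst s) (cst (seq n)) : ℝ) - (J N s' (cst (seq n)) : ℝ) : ℝ) : ℂ) := by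
            push_cast; ring
        rw [this, Complex.norm_real, Real.norm_eq_abs, abs_le]
        have h1' : (J N (cst s) (cst (seq n)) : ℝ) ≤ N := by exact_mod_cast h1
        have h2' : (J N s' (cst (seq n)) : ℝ) ≤ N := by exact_mod_cast h2
        have h3 : (0 : ℝ) ≤ (J N (cst s) (cst (seq n)) : ℝ) := by positivity
        have h4 : (0 : ℝ) ≤ (J N s' (cst (seq n)) : ℝ) := by positivity
        constructor <;> linarith
      · simp)

lemma bad_apply (N p : ℕ) (s : ℕ → ℕ) (s' : ℕ → ℕ∞) (n : ℕ) :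
    bad N p s s' n = if s p < seq n p ∧ seq n p < s (p + 1) then
    ((J N (cst s) (cst (seq n)) : ℂ) / N - (J N s' (cst (seq n)) : ℂ) / N) else 0 := by
  simp only [bad, mk_apply]

lemma norm_bad_le (N p : ℕ) (s : ℕ → ℕ) (s' : ℕ → ℕ∞) : ‖bad N p s s'‖ ≤ 1 := norm_mk_le _ _

/-- Outside the bad set the difference is at most `1 / N`. -/
lemma norm_good_le (N p : ℕ) (s : ℕ → ℕ) (s' : ℕ → ℕ∞) (h : ∀ i < p, (s i : ℕ∞) = s' i)
    (hp : s' p = ⊤) : ‖vec N s - vec' N s' - bad N p s s'‖ ≤ 1 / N := by
  refine lp.norm_le_of_forall_le (by positivity) fun n => ?_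
  have e : (vec N s - vec' N s' - bad N p s s' : Linf) n =
      vec' N (cst s) n - vec' N s' n - bad N p s s' n := rfl
  rw [e, vec'_apply, vec'_apply, bad_apply]
  split_ifs with hb
  · simp
  · rw [sub_zero, ← sub_div, norm_div, Complex.norm_natCast]
    refine div_le_div_of_nonneg_right ?_ (by positivity)
    have key := J_near p N (cst s) s' (cst (seq n)) h hp (fun i => by simp [cst]) (by
      simpa [cst] using hb)
    have : ((J N (cst s) (cst (seq n)) : ℂ) - (J N s' (cst (seq n)) : ℂ)) =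
          (((J N (cst s) (cst (seq n)) : ℝ) - (J N s' (cst (seq n)) : ℝ) : ℝ) : ℂ) := by
            push_cast; ring
    rw [this, Complex.norm_real, Real.norm_eq_abs, abs_le]
    have k1 : (J N (cst s) (cst (seq n)) : ℝ) ≤ J N s' (cst (seq n)) + 1 := by exact_mod_cast key.1
    have k2 : (J N s' (cst (seq n)) : ℝ) ≤ J N (cst s) (cst (seq n)) + 1 := by exact_mod_cast key.2
    constructor <;> linarith

/-- If `s p → ∞` along a filter, functionals are small on the bad parts. -/
lemma bad_small (N p : ℕ) (s' : ℕ → ℕ∞) (𝒰 : Ultrafilter (ℕ → ℕ))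
    (hinf : ∀ m : ℕ, ∀ᶠ s in (𝒰 : Filter (ℕ → ℕ)), m ≤ s p) (μ : StrongDual ℂ Linf) (η : ℝ)
    (hη : 0 < η) : ∀ᶠ s in (𝒰 : Filter (ℕ → ℕ)), ‖μ (bad N p s s')‖ ≤ η := by
  by_contra hcon
  rw [← Ultrafilter.eventually_not] at hcon
  have hex : ∀ m : ℕ, ∃ s : ℕ → ℕ, m ≤ s p ∧ η < ‖μ (bad N p s s')‖ := by
    intro m
    obtain ⟨s, hs⟩ := ((hinf m).and hcon).exists
    exact ⟨s, hs.1, not_le.1 hs.2⟩
  choose g hg1 hg2 using hex
  -- thresholds
  let th : ℕ → ℕ := fun j => Nat.rec 0 (fun _ m => max m (g m (p + 1))) j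
  have th_succ : ∀ j, th (j + 1) = max (th j) (g (th j) (p + 1)) := fun j => rfl
  have th_mono : Monotone th := monotone_nat_of_le_succ fun j => by
    rw [th_succ]; exact le_max_left _ _
  have hdis' : ∀ i j n, i < j → bad N p (g (th i)) s' n ≠ 0 →
      bad N p (g (th j)) s' n ≠ 0 → False := by
    intro i j n hij h1 h2
    rw [bad_apply] at h1 h2
    have a1 : g (th i) p < seq n p ∧ seq n p < g (th i) (p + 1) := by
      by_contra h; exact h1 (if_neg h)
    have a2 : g (th j) p < seq n p ∧ seq n p < g (th j) (p + 1) := by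
      by_contra h; exact h2 (if_neg h)
    have b1 : g (th i) (p + 1) ≤ th (i + 1) := by rw [th_succ]; exact le_max_right _ _
    have b2 : th (i + 1) ≤ th j := th_mono hij
    have b3 := hg1 (th j)
    omega
  have hdis : ∀ i j n, bad N p (g (th i)) s' n ≠ 0 → bad N p (g (th j)) s' n ≠ 0 → i = j := by
    intro i j n h1 h2
    rcases lt_trichotomy i j with h | h | h
    · exact (hdis' i j n h h1 h2).elim
    · exact h
    · exact (hdis' j i n h h2 h1).elim
  obtain ⟨n, hn⟩ := exists_nat_gt (‖μ‖ / η)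
  have h1 := sum_disjoint μ (fun j => bad N p (g (th j)) s') (fun j => norm_bad_le _ _ _ _) hdis
    (Finset.range n)
  have h2 : (n : ℝ) * η ≤ ∑ j ∈ Finset.range n, ‖μ (bad N p (g (th j)) s')‖ := by
    have := Finset.card_nsmul_le_sum (Finset.range n)
      (fun j => ‖μ (bad N p (g (th j)) s')‖) η (fun j _ => (hg2 (th j)).le)
    simpa using this
  rw [div_lt_iff₀ hη] at hn
  linarith

lemma ultra_alt (𝒰 : Ultrafilter (ℕ → ℕ)) (p : ℕ)
    (h : ¬ ∃ r : ℕ, ∀ᶠ s in (𝒰 : Filter (ℕ → ℕ)), s p = r) (m : ℕ) :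
    ∀ᶠ s in (𝒰 : Filter (ℕ → ℕ)), m ≤ s p := by
  by_contra hcon
  rw [← Ultrafilter.eventually_not] at hcon
  have hfin : (Set.Iio m).Finite := Set.finite_Iio m
  have : (⋃ r ∈ Set.Iio m, {s : ℕ → ℕ | s p = r}) ∈ 𝒰 := by
    have : ∀ᶠ s in (𝒰 : Filter (ℕ → ℕ)), s ∈ (⋃ r ∈ Set.Iio m, {s : ℕ → ℕ | s p = r}) := by
      filter_upwards [hcon] with s hs
      simp only [Set.mem_iUnion]
      exact ⟨s p, not_le.1 hs, rfl⟩
    exact this
  rw [Ultrafilter.finite_biUnion_mem_iff hfin] at this
  obtain ⟨r, _, hr⟩ := this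
  exact h ⟨r, hr⟩

/-- Main claim for the upper bound. -/
lemma main_claim (N : ℕ) (𝒰 : Ultrafilter (ℕ → ℕ)) : ∃ φ : Linf, ∀ μ : StrongDual ℂ Linf,
    ∀ η : ℝ, 0 < η → ∀ᶠ s in (𝒰 : Filter (ℕ → ℕ)), ‖μ (vec N s) - μ φ‖ ≤ 1 / N * ‖μ‖ + η := by
  classical
  by_cases hall : ∀ p, ∃ r : ℕ, ∀ᶠ s in (𝒰 : Filter (ℕ → ℕ)), s p = r
  · choose r hr using hall
    refine ⟨vec N r, fun μ η hη => ?_⟩
    have hev : ∀ᶠ s in (𝒰 : Filter (ℕ → ℕ)), ∀ i ∈ Set.Iic N, s i = r i :=
      (Filter.eventually_all_finite (Set.finite_Iic N)).2 fun i _ => hr i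
    filter_upwards [hev] with s hs
    have : vec N s = vec N r := by
      apply lp.ext
      funext n
      change vec' N (cst s) n = vec' N (cst r) n
      rw [vec'_apply, vec'_apply, J_congr N (cst s) (cst r) (cst (seq n)) (cst (seq n))
        (fun i hi => by simp [cst, hs i hi]) (fun _ _ => rfl)]
    rw [this, sub_self, norm_zero]
    positivity
  · have hex : ∃ p, ¬ ∃ r : ℕ, ∀ᶠ s in (𝒰 : Filter (ℕ → ℕ)), s p = r := not_forall.1 hall
    set p := Nat.find hex with hpdef
    have hp := Nat.find_spec hex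
    have hlt : ∀ i, i < p → ∃ r : ℕ, ∀ᶠ s in (𝒰 : Filter (ℕ → ℕ)), s i = r := by
      intro i hi
      have := Nat.find_min hex hi
      exact not_not.1 this
    have hlt' : ∀ i, ∃ r : ℕ, i < p → ∀ᶠ s in (𝒰 : Filter (ℕ → ℕ)), s i = r := by
      intro i
      by_cases hi : i < p
      · obtain ⟨r, hr⟩ := hlt i hi
        exact ⟨r, fun _ => hr⟩
      · exact ⟨0, fun h => absurd h hi⟩
    choose r hr using hlt'
    let s' : ℕ → ℕ∞ := fun i => if i < p then (r i : ℕ∞) else ⊤
    refine ⟨vec' N s', fun μ η hη => ?_⟩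
    have hev : ∀ᶠ s in (𝒰 : Filter (ℕ → ℕ)), ∀ i ∈ Set.Iio p, s i = r i :=
      (Filter.eventually_all_finite (Set.finite_Iio p)).2 fun i hi => hr i hi
    have hbad := bad_small N p s' 𝒰 (ultra_alt 𝒰 p hp) μ η hη
    filter_upwards [hev, hbad] with s hs hb
    have hgood := norm_good_le N p s s' (fun i hi => by simp [s', hi, hs i hi])
      (by simp [s'])
    have e : μ (vec N s) - μ (vec' N s') =
        μ (vec N s - vec' N s' - bad N p s s') + μ (bad N p s s') := by
      simp only [map_sub]; ring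
    rw [e]
    calc ‖μ (vec N s - vec' N s' - bad N p s s') + μ (bad N p s s')‖
        ≤ ‖μ (vec N s - vec' N s' - bad N p s s')‖ + ‖μ (bad N p s s')‖ := norm_add_le _ _
      _ ≤ ‖μ‖ * (1 / N) + η := add_le_add (μ.le_of_opNorm_le_of_le le_rfl hgood) hb
      _ = 1 / N * ‖μ‖ + η := by ring

/-- Upper bound for `wk`. -/
theorem wk_le (N : ℕ) : wk (Set.range (vec N)) ≤ ENNReal.ofReal (1 / N) := by
  refine iSup₂_le fun x hx => ?_
  rw [wstarClosure, Set.mem_ofPred_eq, mem_closure_iff_ultrafilter] at hx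
  obtain ⟨𝒲, hmem, hle⟩ := hx
  set F : (ℕ → ℕ) → WeakDual ℂ (StrongDual ℂ Linf) :=
    fun s => StrongDual.toWeakDual (NormedSpace.inclusionInDoubleDual ℂ Linf (vec N s)) with hF
  have himg : F '' Set.univ ∈ 𝒲 := by
    refine Filter.mem_of_superset hmem ?_
    rintro _ ⟨_, ⟨s, rfl⟩, rfl⟩
    exact ⟨s, trivial, rfl⟩
  set 𝒰 := Ultrafilter.ofComapInfPrincipal himg with h𝒰
  have hmap : Ultrafilter.map F 𝒰 = 𝒲 := Ultrafilter.ofComapInfPrincipal_eq_of_map himg
  have htend : Tendsto F 𝒰 (𝓝 (StrongDual.toWeakDual x)) := by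
    rw [Tendsto, ← Ultrafilter.coe_map, hmap]; exact hle
  have htend' : ∀ μ : StrongDual ℂ Linf, Tendsto (fun s => μ (vec N s)) 𝒰 (𝓝 (x μ)) := by
    intro μ
    have := ((WeakDual.eval_continuous (𝕜 := ℂ) μ).tendsto (StrongDual.toWeakDual x)).comp htend
    exact this
  obtain ⟨φ, hφ⟩ := main_claim N 𝒰
  have hnorm : ‖x - NormedSpace.inclusionInDoubleDual ℂ Linf φ‖ ≤ 1 / N := by
    refine ContinuousLinearMap.opNorm_le_bound _ (by positivity) fun μ => ?_
    have e : (x - NormedSpace.inclusionInDoubleDual ℂ Linf φ) μ = x μ - μ φ := rfl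
    rw [e]
    refine le_of_forall_pos_le_add fun η hη => ?_
    exact le_of_tendsto ((htend' μ).sub_const (μ φ)).norm (hφ μ η hη)
  calc Metric.infEDist x (Set.range (NormedSpace.inclusionInDoubleDual ℂ Linf))
      ≤ edist x (NormedSpace.inclusionInDoubleDual ℂ Linf φ) :=
        Metric.infEDist_le_edist_of_mem ⟨φ, rfl⟩
    _ = ENNReal.ofReal ‖x - NormedSpace.inclusionInDoubleDual ℂ Linf φ‖ := by
        rw [edist_dist, dist_eq_norm]
    _ ≤ ENNReal.ofReal (1 / N) := ENNReal.ofReal_le_ofReal hnorm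

section lower

lemma exists_wlim (K : Set Linf) (hK : IsWeaklyCompact K) (g : ℕ → Linf) (hg : ∀ n, g n ∈ K) :
    ∃ x ∈ K, ∀ μ : StrongDual ℂ Linf,
      Tendsto (fun n => μ (g n)) (hyperfilter ℕ) (𝓝 (μ x)) := by
  have h := hK.ultrafilter_le_nhds (Ultrafilter.map (fun n => toWeakSpace ℂ Linf (g n))
    (hyperfilter ℕ)) (by
      rw [Filter.le_principal_iff, Ultrafilter.coe_map, Filter.mem_map]
      exact Filter.univ_mem' fun n => ⟨g n, hg n, rfl⟩)
  obtain ⟨_, ⟨x, hx, rfl⟩, hle⟩ := h
  refine ⟨x, hx, fun μ => ?_⟩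
  have ht : Tendsto (fun n => toWeakSpace ℂ Linf (g n)) (hyperfilter ℕ)
    (𝓝 (toWeakSpace ℂ Linf x)) := hle
  have hc : Continuous fun y : WeakSpace ℂ Linf => (topDualPairing ℂ Linf).flip y μ :=
    WeakBilin.eval_continuous _ μ
  exact (hc.tendsto _).comp ht

lemma exists_dlim (g : ℕ → StrongDual ℂ Linf) (hg : ∀ n, ‖g n‖ ≤ 1) :
    ∃ ν : StrongDual ℂ Linf, ‖ν‖ ≤ 1 ∧ ∀ x : Linf,
      Tendsto (fun n => g n x) (hyperfilter ℕ) (𝓝 (ν x)) := by
  have h := (WeakDual.isCompact_closedBall (𝕜 := ℂ) (0 : StrongDual ℂ Linf) 1).ultrafilter_le_nhds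
    (Ultrafilter.map (fun n => StrongDual.toWeakDual (g n)) (hyperfilter ℕ)) (by
      rw [Filter.le_principal_iff, Ultrafilter.coe_map, Filter.mem_map]
      refine Filter.univ_mem' fun n => ?_
      simpa using hg n)
  obtain ⟨ν, hν, hle⟩ := h
  refine ⟨WeakDual.toStrongDual ν, by simpa using hν, fun x => ?_⟩
  have ht : Tendsto (fun n => StrongDual.toWeakDual (g n)) (hyperfilter ℕ) (𝓝 ν) := hle
  exact ((WeakDual.eval_continuous (𝕜 := ℂ) x).tendsto ν).comp ht

/-- Evaluation at `n`. -/
noncomputable def ev (n : ℕ) : StrongDual ℂ Linf := lp.evalCLM ℂ (fun _ : ℕ => ℂ) ∞ n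

lemma ev_apply (n : ℕ) (x : Linf) : ev n x = x n := rfl

lemma norm_ev_le (n : ℕ) : ‖ev n‖ ≤ 1 :=
  ContinuousLinearMap.opNorm_le_bound _ zero_le_one fun x => by
    rw [one_mul, ev_apply]; exact lp.norm_apply_le_norm (by simp) x n

lemma hyper_gt (m : ℕ) : ∀ᶠ n in (hyperfilter ℕ : Filter ℕ), m < n :=
  Nat.hyperfilter_le_atTop (eventually_gt_atTop m)

/-- Lower bound for `omega`. -/
theorem half_le_omega (k : ℕ) (hk : 0 < k) :
    ENNReal.ofReal (1 / 2) ≤ omega (Set.range (vec (2 * k - 1))) := by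
  classical
  refine le_iInf₂ fun K hK => ?_
  by_contra hlt
  rw [not_le] at hlt
  set N := 2 * k - 1 with hN
  obtain ⟨c, hc0, hc1, hc2⟩ := ENNReal.lt_iff_exists_real_btwn.1 hlt
  have hc : c < 1 / 2 := by
    by_contra h
    exact absurd (ENNReal.ofReal_le_ofReal (not_lt.1 h)) (not_le.2 hc2)
  have hex : ∀ s : ℕ → ℕ, ∃ h ∈ K, ‖vec N s - h‖ ≤ c := by
    intro s
    have h1 : Metric.infEDist (vec N s) K < ENNReal.ofReal c :=
      lt_of_le_of_lt (le_iSup₂ (f := fun a (_ : a ∈ Set.range (vec N)) => Metric.infEDist a K)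
        (vec N s) ⟨s, rfl⟩) hc1
    obtain ⟨h, hh, hd⟩ := Metric.infEDist_lt_iff.1 h1
    refine ⟨h, hh, ?_⟩
    rw [edist_dist, dist_eq_norm] at hd
    exact ((ENNReal.ofReal_lt_ofReal_iff_of_nonneg (norm_nonneg _)).1 hd).le
  choose h hhK hhc using hex
  -- limits
  have hL : ∀ g : ℕ → Linf, ∃ x : Linf, (∀ n, g n ∈ K) → x ∈ K ∧ ∀ μ : StrongDual ℂ Linf,
      Tendsto (fun n => μ (g n)) (hyperfilter ℕ) (𝓝 (μ x)) := by
    intro g
    by_cases hg : ∀ n, g n ∈ K
    · obtain ⟨x, hx, hx'⟩ := exists_wlim K hK.2 g hg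
      exact ⟨x, fun _ => ⟨hx, hx'⟩⟩
    · exact ⟨0, fun h => absurd h hg⟩
  choose L hLp using hL
  have hM : ∀ g : ℕ → StrongDual ℂ Linf, ∃ ν : StrongDual ℂ Linf, (∀ n, ‖g n‖ ≤ 1) →
      ‖ν‖ ≤ 1 ∧ ∀ x : Linf, Tendsto (fun n => g n x) (hyperfilter ℕ) (𝓝 (ν x)) := by
    intro g
    by_cases hg : ∀ n, ‖g n‖ ≤ 1
    · obtain ⟨x, hx, hx'⟩ := exists_dlim g hg
      exact ⟨x, fun _ => ⟨hx, hx'⟩⟩
    · exact ⟨0, fun h => absurd h hg⟩
  choose M hMp using hM
  choose code hcode using fun t : ℕ → ℕ => exists_code k t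
  let H : ℕ → (ℕ → ℕ) → Linf := fun m => Nat.rec (fun s => h s)
    (fun m ih s => L (fun n => ih (Function.update s (k - (m + 1)) n))) m
  let D : ℕ → (ℕ → ℕ) → StrongDual ℂ Linf := fun m => Nat.rec (fun t => ev (code t))
    (fun m ih t => M (fun n => ih (Function.update t (k - (m + 1)) n))) m
  have H0 : ∀ s, H 0 s = h s := fun s => rfl
  have Hs : ∀ m s, H (m + 1) s = L (fun n => H m (Function.update s (k - (m + 1)) n)) :=
    fun m s => rfl
  have D0 : ∀ t, D 0 t = ev (code t) := fun t => rfl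
  have Ds : ∀ m t, D (m + 1) t = M (fun n => D m (Function.update t (k - (m + 1)) n)) :=
    fun m t => rfl
  have HK : ∀ m s, H m s ∈ K := by
    intro m
    induction m with
    | zero => intro s; exact hhK s
    | succ m ih => intro s; rw [Hs]; exact (hLp _ fun n => ih _).1
  have HT : ∀ m s (μ : StrongDual ℂ Linf), Tendsto
      (fun n => μ (H m (Function.update s (k - (m + 1)) n))) (hyperfilter ℕ)
      (𝓝 (μ (H (m + 1) s))) := by
    intro m s μ
    rw [Hs]
    exact (hLp _ fun n => HK m _).2 μ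
  have DB : ∀ m t, ‖D m t‖ ≤ 1 := by
    intro m
    induction m with
    | zero => intro t; exact norm_ev_le _
    | succ m ih => intro s; rw [Ds]; exact (hMp _ fun n => ih _).1
  have DT : ∀ m t (x : Linf), Tendsto
      (fun n => D m (Function.update t (k - (m + 1)) n) x) (hyperfilter ℕ)
      (𝓝 (D (m + 1) t x)) := by
    intro m t x
    rw [Ds]
    exact (hMp _ fun n => DB m _).2 x
  have hval : ∀ s t, ‖vec N s (code t) - D 0 t (H 0 s)‖ ≤ c := by
    intro s t
    have : vec N s (code t) - D 0 t (H 0 s) = ev (code t) (vec N s - h s) := rfl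
    rw [this]
    have h1 := (ev (code t)).le_of_opNorm_le_of_le (norm_ev_le _) (hhc s)
    simpa using h1
  -- first evaluation
  have C1 : ∀ m, m ≤ k → ∀ s t : ℕ → ℕ, (∀ i < k - m, s i < t i) →
      (∀ i, i + 1 < k - m → t i < s (i + 1)) → ‖D m t (H m s) - 1‖ ≤ c := by
    intro m
    induction m with
    | zero =>
      intro _ s t h1 h2
      have e : vec N s (code t) = 1 := by
        change vec' N (cst s) (code t) = 1
        rw [vec'_apply, J_full]
        · have : (N : ℂ) ≠ 0 := by
            rw [Nat.cast_ne_zero]; omega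
          exact div_self this
        · intro i hi
          have hik : i < k := by omega
          simp only [cst, hcode t i hik]
          exact_mod_cast h1 i (by omega)
        · intro i hi
          have hik : i < k := by omega
          simp only [cst, hcode t i hik]
          exact_mod_cast h2 i (by omega)
      have := hval s t
      rw [e, norm_sub_rev] at this
      exact this
    | succ m ih =>
      intro hm s t h1 h2
      set j := k - (m + 1) with hj
      have hjk : k - m = j + 1 := by omega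
      have hgoal : ∀ᶠ n in (hyperfilter ℕ : Filter ℕ),
          ‖D (m + 1) t (H m (Function.update s j n)) - 1‖ ≤ c := by
        filter_upwards [hyper_gt (t (j - 1))] with n hn
        have hgoal' : ∀ᶠ n' in (hyperfilter ℕ : Filter ℕ),
            ‖D m (Function.update t j n') (H m (Function.update s j n)) - 1‖ ≤ c := by
          filter_upwards [hyper_gt n] with n' hn'
          refine ih (by omega) _ _ ?_ ?_
          · intro i hi
            rw [hjk] at hi
            rcases Nat.lt_succ_iff_lt_or_eq.1 hi with hi' | hi'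
            · rw [Function.update_of_ne (by omega), Function.update_of_ne (by omega)]
              exact h1 i hi'
            · subst hi'; simpa using hn'
          · intro i hi
            rw [hjk] at hi
            rw [Function.update_of_ne (show i ≠ j by omega)]
            rcases Nat.lt_succ_iff_lt_or_eq.1 hi with hi' | hi'
            · rw [Function.update_of_ne (by omega)]
              exact h2 i hi'
            · rw [hi', Function.update_self]
              have : i = j - 1 := by omega
              rw [this]; exact hn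
        exact le_of_tendsto ((DT m t (H m (Function.update s j n))).sub_const 1).norm hgoal'
      exact le_of_tendsto ((HT m s (D (m + 1) t)).sub_const 1).norm hgoal
  -- second evaluation
  have C2 : ∀ m, m + 1 ≤ k → ∀ s t : ℕ → ℕ, t 0 ≤ s 0 → ‖D 0 t (H m s)‖ ≤ c := by
    intro m
    induction m with
    | zero =>
      intro _ s t h1
      have e : vec N s (code t) = 0 := by
        change vec' N (cst s) (code t) = 0
        rw [vec'_apply, J_zero_of]
        · simp
        · simp only [cst, hcode t 0 hk]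
          exact_mod_cast h1
      have := hval s t
      rw [e, zero_sub, norm_neg] at this
      exact this
    | succ m ih =>
      intro hm s t h1
      refine le_of_tendsto (HT m s (D 0 t)).norm (Filter.Eventually.of_forall fun n => ?_)
      refine ih (by omega) _ _ ?_
      rw [Function.update_of_ne (by omega)]
      exact h1
  have C3 : ∀ s t : ℕ → ℕ, ‖D 0 t (H k s)‖ ≤ c := by
    intro s t
    obtain ⟨k', rfl⟩ : ∃ k', k = k' + 1 := ⟨k - 1, by omega⟩
    refine le_of_tendsto (HT k' s (D 0 t)).norm ?_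
    filter_upwards [hyper_gt (t 0)] with n hn
    refine C2 k' le_rfl _ _ ?_
    simpa using hn.le
  have C4 : ∀ m, ∀ s t : ℕ → ℕ, ‖D m t (H k s)‖ ≤ c := by
    intro m
    induction m with
    | zero => exact C3
    | succ m ih =>
      intro s t
      exact le_of_tendsto (DT m t (H k s)).norm (Filter.Eventually.of_forall fun n => ih s _)
  have f1 := C1 k le_rfl 0 0 (by simp) (by simp)
  have f2 := C4 k 0 0
  have f3 : (1 : ℝ) ≤ ‖D k 0 (H k 0)‖ + ‖D k 0 (H k 0) - 1‖ := by
    have : (1 : ℂ) = D k 0 (H k 0) - (D k 0 (H k 0) - 1) := by ring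
    calc (1 : ℝ) = ‖(1 : ℂ)‖ := by simp
      _ = ‖D k 0 (H k 0) - (D k 0 (H k 0) - 1)‖ := by rw [← this]
      _ ≤ _ := norm_sub_le _ _
  linarith

end lower

section jbw

/-- Multiplication operators, as an algebra homomorphism. -/
noncomputable def mulHom : Linf →ₐ[ℂ] (Linf →L[ℂ] Linf) :=
  AlgHom.ofLinearMap (ContinuousLinearMap.mul ℂ Linf).toLinearMap (by ext x; simp)
    (fun a b => by ext x; simp [mul_assoc])

lemma mulHom_apply (a x : Linf) : mulHom a x = a * x := rfl

lemma continuous_mulHom : Continuous mulHom := (ContinuousLinearMap.mul ℂ Linf).continuous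

/-- Evaluation as a ring homomorphism. -/
noncomputable def evHom (n : ℕ) : Linf →+* ℂ where
  toFun x := x n
  map_one' := by rw [lp.infty_coeFn_one]; rfl
  map_mul' a b := by rw [lp.infty_coeFn_mul]; rfl
  map_zero' := rfl
  map_add' _ _ := rfl

lemma continuous_evHom (n : ℕ) : Continuous (evHom n) := (ev n).continuous

lemma norm_exp_mul (b : Linf) (hb : ∀ n, (b n).re = 0) (x : Linf) :
    ‖NormedSpace.exp b * x‖ = ‖x‖ := by
  rw [lp.norm_eq_ciSup, lp.norm_eq_ciSup]
  congr 1
  funext n
  have h1 : (NormedSpace.exp b * x : Linf) n = (NormedSpace.exp b : Linf) n * x n := by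
    rw [lp.infty_coeFn_mul]; rfl
  have h2 : evHom n (NormedSpace.exp b) = NormedSpace.exp (evHom n b) :=
    NormedSpace.map_exp_of_mem_ball (𝕂 := ℂ) (evHom n) (continuous_evHom n) b
      ((NormedSpace.expSeries_radius_eq_top ℂ Linf).symm ▸ edist_lt_top _ _)
  have h3 : (NormedSpace.exp b : Linf) n = Complex.exp (b n) := by
    rw [Complex.exp_eq_exp_ℂ]; exact h2
  rw [h1, norm_mul, h3, Complex.norm_exp, hb n, Real.exp_zero, one_mul]

lemma spectrum_sub (b : Linf) (hb : ∀ n, 0 ≤ (b n).re ∧ (b n).im = 0) (z : ℂ)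
    (hz : z ∈ spectrum ℂ b) : 0 ≤ z.re ∧ z.im = 0 := by
  by_contra hcon
  -- a lower bound for the distance
  obtain ⟨δ, hδ, hδb⟩ : ∃ δ : ℝ, 0 < δ ∧ ∀ n, δ ≤ ‖z - b n‖ := by
    by_cases him : z.im = 0
    · have hre : z.re < 0 := by
        by_contra h
        exact hcon ⟨not_lt.1 h, him⟩
      refine ⟨-z.re, by linarith, fun n => ?_⟩
      have h1 := Complex.abs_re_le_norm (z - b n)
      have h2 := neg_abs_le (z - b n).re
      have h3 := (hb n).1
      rw [Complex.sub_re] at h1 h2
      linarith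
    · refine ⟨|z.im|, abs_pos.2 him, fun n => ?_⟩
      have h1 := Complex.abs_im_le_norm (z - b n)
      rw [Complex.sub_im, (hb n).2, sub_zero] at h1
      exact h1
  apply hz
  let w : Linf := ⟨fun n => (z - b n)⁻¹, memℓp_infty ⟨δ⁻¹, by
    rintro _ ⟨n, rfl⟩
    simp only [norm_inv]
    exact inv_anti₀ hδ (hδb n)⟩⟩
  have hne : ∀ n, z - b n ≠ 0 := fun n h => by
    have := hδb n
    rw [h, norm_zero] at this
    linarith
  have hw : ∀ n, w n = (z - b n)⁻¹ := fun n => rfl
  have hval : ∀ n, (algebraMap ℂ Linf z - b : Linf) n = z - b n := by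
    intro n
    have h1 : (algebraMap ℂ Linf z - b : Linf) n = (algebraMap ℂ Linf z : Linf) n - b n := rfl
    have h2 : (algebraMap ℂ Linf z : Linf) n = z := by
      rw [Algebra.algebraMap_eq_smul_one]
      have : (z • (1 : Linf) : Linf) n = z * (1 : Linf) n := rfl
      rw [this, lp.infty_coeFn_one]; simp
    rw [h1, h2]
  have h1 : (algebraMap ℂ Linf z - b) * w = 1 := by
    apply lp.ext
    funext n
    rw [lp.infty_coeFn_mul, lp.infty_coeFn_one, Pi.mul_apply, hval, hw, mul_inv_cancel₀ (hne n)]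
    rfl
  exact IsUnit.of_mul_eq_one w h1

/-- `ℓ^∞` is a JB*-triple. -/
theorem jbstar : IsJBStarTriple Linf (fun a b c => a * star b * c) where
  complete := inferInstance
  continuous := by fun_prop
  add_left a a' b c := by ring
  smul_left z a b c := by
    change z • a * star b * c = z • (a * star b * c)
    rw [smul_mul_assoc, smul_mul_assoc]
  add_middle a b b' c := by rw [star_add]; ring
  smul_middle z a b c := by
    rw [star_smul, mul_smul_comm, smul_mul_assoc]; rfl
  symm a b c := by ring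
  jordan x y a b c := by
    change x * star y * (a * star b * c) = x * star y * a * star b * c -
      a * star (y * star x * b) * c + a * star b * (x * star y * c)
    have key : star (y * star x * b) = star b * x * star y := by
      apply lp.ext
      funext n
      simp only [lp.infty_coeFn_mul, Pi.mul_apply, lp.star_apply, star_mul, star_star]
      ring
    rw [key]; ring
  positive a := by
    have hval : ∀ n, (a * star a : Linf) n = ((‖a n‖ ^ 2 : ℝ) : ℂ) := by
      intro n
      rw [lp.infty_coeFn_mul, Pi.mul_apply, lp.star_apply]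
      have := Complex.mul_conj (a n)
      rw [Complex.normSq_eq_norm_sq] at this
      exact this
    refine ⟨mulHom (a * star a), fun x => rfl, fun t x => ?_, fun z hz => ?_⟩
    · have h1 : NormedSpace.exp (((t : ℂ) * Complex.I) • mulHom (a * star a)) =
          mulHom (NormedSpace.exp (((t : ℂ) * Complex.I) • (a * star a))) := by
        rw [← map_smul]
        exact (NormedSpace.map_exp_of_mem_ball (𝕂 := ℂ) mulHom continuous_mulHom _
          ((NormedSpace.expSeries_radius_eq_top ℂ Linf).symm ▸ edist_lt_top _ _)).symm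
      rw [h1, mulHom_apply]
      refine norm_exp_mul _ (fun n => ?_) x
      have h2 : (((t : ℂ) * Complex.I) • (a * star a) : Linf) n =
        ((t : ℂ) * Complex.I) * (a * star a : Linf) n := rfl
      have h3 : ((t : ℂ) * Complex.I) * ((‖a n‖ ^ 2 : ℝ) : ℂ) =
          ((t * ‖a n‖ ^ 2 : ℝ) : ℂ) * Complex.I := by push_cast; ring
      rw [h2, hval n, h3, Complex.re_ofReal_mul, Complex.I_re, mul_zero]
    · have h1 : z ∈ spectrum ℂ (a * star a : Linf) := AlgHom.spectrum_apply_subset mulHom _ hz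
      refine spectrum_sub _ (fun n => ?_) z h1
      rw [hval n]
      exact ⟨by rw [Complex.ofReal_re]; positivity, Complex.ofReal_im _⟩
  norm_cube a := by
    have h1 : ∀ n, ‖(a * star a * a : Linf) n‖ = ‖a n‖ ^ 3 := by
      intro n
      rw [lp.infty_coeFn_mul, lp.infty_coeFn_mul, Pi.mul_apply, Pi.mul_apply, lp.star_apply,
        norm_mul, norm_mul, norm_star]
      ring
    apply le_antisymm
    · refine lp.norm_le_of_forall_le (by positivity) fun n => ?_
      rw [h1 n]
      exact pow_le_pow_left₀ (norm_nonneg _) (lp.norm_apply_le_norm (by simp) a n) 3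
    · have h2 : ‖a‖ ≤ ‖a * star a * a‖ ^ ((1 : ℝ) / 3) := by
        refine lp.norm_le_of_forall_le (by positivity) fun n => ?_
        have h3 := lp.norm_apply_le_norm (by simp) (a * star a * a : Linf) n
        rw [h1 n] at h3
        calc ‖a n‖ = (‖a n‖ ^ 3) ^ ((1 : ℝ) / 3) := by
              rw [← Real.rpow_natCast, ← Real.rpow_mul (norm_nonneg _)]
              norm_num
          _ ≤ _ := Real.rpow_le_rpow (by positivity) h3 (by positivity)
      calc ‖a‖ ^ 3 ≤ (‖a * star a * a‖ ^ ((1 : ℝ) / 3)) ^ 3 :=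
            pow_le_pow_left₀ (norm_nonneg _) h2 3
        _ = ‖a * star a * a‖ := by
            rw [← Real.rpow_natCast, ← Real.rpow_mul (norm_nonneg _)]
            norm_num

/-- ℓ^1 -/
abbrev Lone : Type := lp (fun _ : ℕ => ℂ) 1

lemma summable_norm_lone (x : Lone) : Summable fun n => ‖x n‖ := by
  have := (lp.memℓp x).summable (by simp)
  simpa using this

lemma norm_lone (x : Lone) : ‖x‖ = ∑' n, ‖x n‖ := by
  rw [lp.norm_eq_tsum_rpow (by simp)]; simp

lemma summable_pair (f : Linf) (x : Lone) : Summable fun n => f n * x n := by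
  refine Summable.of_norm_bounded (g := fun n => ‖f‖ * ‖x n‖)
    ((summable_norm_lone x).mul_left _) fun n => ?_
  rw [norm_mul]
  exact mul_le_mul_of_nonneg_right (lp.norm_apply_le_norm (by simp) f n) (norm_nonneg _)

/-- The functional on `ℓ^1` given by an element of `ℓ^∞`. -/
noncomputable def toDual (f : Linf) : StrongDual ℂ Lone :=
  LinearMap.mkContinuous
    { toFun := fun x => ∑' n, f n * x n
      map_add' := fun x y => by
        rw [← (summable_pair f x).tsum_add (summable_pair f y)]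
        refine tsum_congr fun n => ?_
        have : (x + y : Lone) n = x n + y n := rfl
        rw [this, mul_add]
      map_smul' := fun c x => by
        simp only [RingHom.id_apply, smul_eq_mul]
        rw [← tsum_mul_left]
        refine tsum_congr fun n => ?_
        have : (c • x : Lone) n = c * x n := rfl
        rw [this]; ring } ‖f‖ (fun x => by
      have h1 : ∀ n, ‖f n * x n‖ ≤ ‖f‖ * ‖x n‖ := fun n => by
        rw [norm_mul]
        exact mul_le_mul_of_nonneg_right (lp.norm_apply_le_norm (by simp) f n) (norm_nonneg _)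
      calc ‖∑' n, f n * x n‖ ≤ ∑' n, ‖f n * x n‖ :=
            norm_tsum_le_tsum_norm (Summable.of_nonneg_of_le (fun _ => norm_nonneg _) h1
              ((summable_norm_lone x).mul_left _))
        _ ≤ ∑' n, ‖f‖ * ‖x n‖ := Summable.tsum_le_tsum h1 (Summable.of_nonneg_of_le
              (fun _ => norm_nonneg _) h1 ((summable_norm_lone x).mul_left _))
              ((summable_norm_lone x).mul_left _)
        _ = ‖f‖ * ‖x‖ := by rw [tsum_mul_left, norm_lone])

lemma toDual_apply (f : Linf) (x : Lone) : toDual f x = ∑' n, f n * x n := rfl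

lemma toDual_single (f : Linf) (n : ℕ) :
    toDual f (lp.single 1 n (1 : ℂ)) = f n := by
  rw [toDual_apply, tsum_eq_single n]
  · rw [lp.single_apply_self]; ring
  · intro m hm
    rw [lp.single_apply_ne _ _ _ hm, mul_zero]

lemma norm_toDual (f : Linf) : ‖toDual f‖ = ‖f‖ := by
  apply le_antisymm
  · exact LinearMap.mkContinuous_norm_le _ (norm_nonneg _) _
  · refine lp.norm_le_of_forall_le (norm_nonneg _) fun n => ?_
    have h := (toDual f).le_opNorm (lp.single 1 n (1 : ℂ))
    rw [toDual_single, lp.norm_single (by simp)] at h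
    simpa using h

/-- `ℓ^∞` is a dual space. -/
theorem linf_dual : Nonempty (Linf ≃ₗᵢ[ℂ] StrongDual ℂ Lone) := by
  let Φ : Linf →ₗᵢ[ℂ] StrongDual ℂ Lone :=
    { toFun := toDual
      map_add' := fun f g => by
        ext x
        rw [toDual_apply]
        change _ = toDual f x + toDual g x
        rw [toDual_apply, toDual_apply, ← (summable_pair f x).tsum_add (summable_pair g x)]
        refine tsum_congr fun n => ?_
        have : (f + g : Linf) n = f n + g n := rfl
        rw [this, add_mul]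
      map_smul' := fun c f => by
        ext x
        rw [toDual_apply]
        change _ = c * toDual f x
        rw [toDual_apply, ← tsum_mul_left]
        refine tsum_congr fun n => ?_
        have : (c • f : Linf) n = c * f n := rfl
        rw [this]; ring
      norm_map' := norm_toDual }
  refine ⟨LinearIsometryEquiv.ofSurjective Φ fun ν => ?_⟩
  let f : Linf := ⟨fun n => ν (lp.single 1 n (1 : ℂ)), memℓp_infty ⟨‖ν‖, by
    rintro _ ⟨n, rfl⟩
    have h := ν.le_opNorm (lp.single 1 n (1 : ℂ))
    rw [lp.norm_single (by simp)] at h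
    simpa using h⟩⟩
  refine ⟨f, ?_⟩
  refine lp.ext_continuousLinearMap (by simp) fun n => ?_
  ext
  change toDual f (lp.single 1 n (1 : ℂ)) = ν (lp.single 1 n (1 : ℂ))
  rw [toDual_single]

theorem jbwstar : IsJBWStarTriple Linf :=
  ⟨⟨_, jbstar⟩, Lone, inferInstance, inferInstance, inferInstance, linf_dual⟩

end jbw

/-- `ℓ^∞` is a JBW*-triple, and on it no constant `C` satisfies `omega A ≤ C * wk A` for all
(nonempty) bounded sets `A`. -/
theorem linf_main : IsJBWStarTriple Linf ∧
    ∀ C : ℝ≥0, ∃ A : Set Linf, A.Nonempty ∧ Bornology.IsBounded A ∧ C * wk A < omega A := by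
  refine ⟨jbwstar, fun C => ?_⟩
  obtain ⟨k, hk⟩ := exists_nat_gt (2 * (C : ℝ) + 1)
  have hk0 : 0 < k := by
    rcases Nat.eq_zero_or_pos k with h | h
    · subst h
      have := C.coe_nonneg
      simp only [Nat.cast_zero] at hk
      linarith
    · exact h
  refine ⟨Set.range (vec (2 * k - 1)), Set.range_nonempty _, ?_, ?_⟩
  · rw [isBounded_iff_forall_norm_le]
    exact ⟨1, by rintro _ ⟨s, rfl⟩; exact norm_vec_le _ _⟩
  · have h1 := wk_le (2 * k - 1)
    have h2 := half_le_omega k hk0
    refine lt_of_lt_of_le (lt_of_le_of_lt (mul_le_mul_right h1 _) ?_) h2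
    rw [← ENNReal.ofReal_coe_nnreal, ← ENNReal.ofReal_mul C.coe_nonneg]
    refine (ENNReal.ofReal_lt_ofReal_iff (by norm_num)).2 ?_
    have h3 : ((2 * k - 1 : ℕ) : ℝ) = 2 * k - 1 := by
      rw [Nat.cast_sub (by omega)]; push_cast; ring
    have hk1 : (1 : ℝ) ≤ k := by exact_mod_cast hk0
    rw [h3, mul_one_div, div_lt_div_iff₀ (by linarith) (by norm_num)]
    linarith

end Pool.Agent.WeakNoncompactness
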